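import Pool.Agent.Lib.MP_9d820d_co.IMain
import Pool.Agent.Lib.MP_9d820d_co.Inn.IC0
import Pool.Agent.Lib.MP_9d820d_co.Inn.IC1
import Pool.Agent.Lib.MP_9d820d_co.Inn.IC2
import Pool.Agent.Lib.MP_9d820d_co.Inn.IC3
import Pool.Agent.Lib.MP_9d820d_co.Inn.IC4
import Pool.Agent.Lib.MP_9d820d_co.Inn.IC5
import Pool.Agent.Lib.MP_9d820d_co.Inn.IC6
import Pool.Agent.Lib.MP_9d820d_co.Inn.IC7

set_option autoImplicit false

namespace Pool.Agent.Lib.MP_9d820d_co.Inn

open Fast IFast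

noncomputable section

variable {P : Prm}

theorem G_688 (hP : P.ok) : IGood P h688 :=
  irun_good hP T_688 ic0
theorem G_687 (hP : P.ok) : IGood P h687 :=
  irun_good hP T_687 (ic1 (G_688 hP) ic0)
theorem G_686 (hP : P.ok) : IBad P (nat_lit 0x82468a0082468a0081dca0007e236000800000007edcba0081a6d0007e59300081a6d0007e5930008113f0007eec10008113f0007eec10) :=
  iroot_bad hP T_686 (ic1 (G_687 hP) ic0)
theorem G_685 (hP : P.ok) : IBad P (nat_lit 0x7db976007db9760081dca0007e236000800000007edcba0081a6d0007e59300081a6d0007e5930008113f0007eec10008113f0007eec10) :=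
  iroot_bad hP T_685 ic0
theorem G_684 (hP : P.ok) : IGood P h684 :=
  irun_good hP T_684 ic0
theorem G_683 (hP : P.ok) : IGood P h683 :=
  irun_good hP T_683 ic0
theorem G_682 (hP : P.ok) : IGood P h682 :=
  irun_good hP T_682 ic0
theorem G_681 (hP : P.ok) : IGood P h681 :=
  irun_good hP T_681 ic0
theorem G_680 (hP : P.ok) : IGood P h680 :=
  irun_good hP T_680 (ic1 (G_684 hP) ic0)
theorem G_679 (hP : P.ok) : IGood P h679 :=
  irun_good hP T_679 ic0
theorem G_678 (hP : P.ok) : IGood P h678 :=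
  irun_good hP T_678 ic0
theorem G_677 (hP : P.ok) : IGood P h677 :=
  irun_good hP T_677 (ic1 (G_683 hP) ic0)
theorem G_676 (hP : P.ok) : IGood P h676 :=
  irun_good hP T_676 ic0
theorem G_675 (hP : P.ok) : IGood P h675 :=
  irun_good hP T_675 (ic1 (G_682 hP) ic0)
theorem G_674 (hP : P.ok) : IGood P h674 :=
  irun_good hP T_674 ic0
theorem G_673 (hP : P.ok) : IGood P h673 :=
  irun_good hP T_673 ic0
theorem G_672 (hP : P.ok) : IGood P h672 :=
  irun_good hP T_672 (ic1 (G_680 hP) (ic1 (G_681 hP) ic0))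
theorem G_671 (hP : P.ok) : IGood P h671 :=
  irun_good hP T_671 ic0
theorem G_670 (hP : P.ok) : IGood P h670 :=
  irun_good hP T_670 ic0
theorem G_669 (hP : P.ok) : IGood P h669 :=
  irun_good hP T_669 ic0
theorem G_668 (hP : P.ok) : IGood P h668 :=
  irun_good hP T_668 ic0
theorem G_667 (hP : P.ok) : IGood P h667 :=
  irun_good hP T_667 ic0
theorem G_666 (hP : P.ok) : IGood P h666 :=
  irun_good hP T_666 ic0
theorem G_665 (hP : P.ok) : IGood P h665 :=
  irun_good hP T_665 ic0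
theorem G_664 (hP : P.ok) : IGood P h664 :=
  irun_good hP T_664 ic0
theorem G_663 (hP : P.ok) : IGood P h663 :=
  irun_good hP T_663 (ic1 (G_678 hP) (ic1 (G_679 hP) ic0))
theorem G_662 (hP : P.ok) : IGood P h662 :=
  irun_good hP T_662 ic0
theorem G_661 (hP : P.ok) : IGood P h661 :=
  irun_good hP T_661 ic0
theorem G_660 (hP : P.ok) : IGood P h660 :=
  irun_good hP T_660 ic0
theorem G_659 (hP : P.ok) : IGood P h659 :=
  irun_good hP T_659 ic0
theorem G_658 (hP : P.ok) : IGood P h658 :=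
  irun_good hP T_658 ic0
theorem G_657 (hP : P.ok) : IGood P h657 :=
  irun_good hP T_657 (ic1 (G_677 hP) ic0)
theorem G_656 (hP : P.ok) : IGood P h656 :=
  irun_good hP T_656 ic0
theorem G_655 (hP : P.ok) : IGood P h655 :=
  irun_good hP T_655 ic0
theorem G_654 (hP : P.ok) : IGood P h654 :=
  irun_good hP T_654 ic0
theorem G_653 (hP : P.ok) : IGood P h653 :=
  irun_good hP T_653 ic0
theorem G_652 (hP : P.ok) : IGood P h652 :=
  irun_good hP T_652 ic0
theorem G_651 (hP : P.ok) : IGood P h651 :=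
  irun_good hP T_651 ic0
theorem G_650 (hP : P.ok) : IGood P h650 :=
  irun_good hP T_650 ic0
theorem G_649 (hP : P.ok) : IGood P h649 :=
  irun_good hP T_649 ic0
theorem G_648 (hP : P.ok) : IGood P h648 :=
  irun_good hP T_648 (ic1 (G_676 hP) ic0)
theorem G_647 (hP : P.ok) : IGood P h647 :=
  irun_good hP T_647 ic0
theorem G_646 (hP : P.ok) : IGood P h646 :=
  irun_good hP T_646 (ic1 (G_674 hP) (ic1 (G_675 hP) ic0))
theorem G_645 (hP : P.ok) : IGood P h645 :=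
  irun_good hP T_645 ic0
theorem G_644 (hP : P.ok) : IGood P h644 :=
  irun_good hP T_644 ic0
theorem G_643 (hP : P.ok) : IGood P h643 :=
  irun_good hP T_643 (ic1 (G_673 hP) ic0)
theorem G_642 (hP : P.ok) : IGood P h642 :=
  irun_good hP T_642 (ic1 (G_670 hP) (ic1 (G_671 hP) (ic1 (G_672 hP) ic0)))
theorem G_641 (hP : P.ok) : IGood P h641 :=
  irun_good hP T_641 ic0
theorem G_640 (hP : P.ok) : IGood P h640 :=
  irun_good hP T_640 ic0
theorem G_639 (hP : P.ok) : IGood P h639 :=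
  irun_good hP T_639 ic0
theorem G_638 (hP : P.ok) : IGood P h638 :=
  irun_good hP T_638 (ic1 (G_666 hP) (ic1 (G_667 hP) (ic1 (G_668 hP) (ic1 (G_669 hP) ic0))))
theorem G_637 (hP : P.ok) : IGood P h637 :=
  irun_good hP T_637 ic0
theorem G_636 (hP : P.ok) : IGood P h636 :=
  irun_good hP T_636 (ic1 (G_662 hP) (ic1 (G_663 hP) (ic1 (G_664 hP) (ic1 (G_665 hP) ic0))))
theorem G_635 (hP : P.ok) : IGood P h635 :=
  irun_good hP T_635 (ic1 (G_657 hP) (ic1 (G_658 hP) (ic1 (G_659 hP) (ic1 (G_660 hP) (ic1 (G_661 hP) ic0)))))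
theorem G_634 (hP : P.ok) : IGood P h634 :=
  irun_good hP T_634 ic0
theorem G_633 (hP : P.ok) : IGood P h633 :=
  irun_good hP T_633 ic0
theorem G_632 (hP : P.ok) : IGood P h632 :=
  irun_good hP T_632 ic0
theorem G_631 (hP : P.ok) : IGood P h631 :=
  irun_good hP T_631 ic0
theorem G_630 (hP : P.ok) : IGood P h630 :=
  irun_good hP T_630 ic0
theorem G_629 (hP : P.ok) : IGood P h629 :=
  irun_good hP T_629 ic0
theorem G_628 (hP : P.ok) : IGood P h628 :=
  irun_good hP T_628 ic0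
theorem G_627 (hP : P.ok) : IGood P h627 :=
  irun_good hP T_627 ic0
theorem G_626 (hP : P.ok) : IGood P h626 :=
  irun_good hP T_626 ic0
theorem G_625 (hP : P.ok) : IGood P h625 :=
  irun_good hP T_625 ic0
theorem G_624 (hP : P.ok) : IGood P h624 :=
  irun_good hP T_624 (ic1 (G_656 hP) ic0)
theorem G_623 (hP : P.ok) : IGood P h623 :=
  irun_good hP T_623 ic0
theorem G_622 (hP : P.ok) : IGood P h622 :=
  irun_good hP T_622 (ic1 (G_655 hP) ic0)
theorem G_621 (hP : P.ok) : IGood P h621 :=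
  irun_good hP T_621 ic0
theorem G_620 (hP : P.ok) : IGood P h620 :=
  irun_good hP T_620 ic0
theorem G_619 (hP : P.ok) : IGood P h619 :=
  irun_good hP T_619 (ic1 (G_654 hP) ic0)
theorem G_618 (hP : P.ok) : IGood P h618 :=
  irun_good hP T_618 ic0
theorem G_617 (hP : P.ok) : IGood P h617 :=
  irun_good hP T_617 (ic1 (G_652 hP) (ic1 (G_653 hP) ic0))
theorem G_616 (hP : P.ok) : IGood P h616 :=
  irun_good hP T_616 ic0
theorem G_615 (hP : P.ok) : IGood P h615 :=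
  irun_good hP T_615 ic0
theorem G_614 (hP : P.ok) : IGood P h614 :=
  irun_good hP T_614 (ic1 (G_647 hP) (ic1 (G_648 hP) (ic1 (G_649 hP) (ic1 (G_650 hP) (ic1 (G_651 hP) ic0)))))
theorem G_613 (hP : P.ok) : IGood P h613 :=
  irun_good hP T_613 ic0
theorem G_612 (hP : P.ok) : IGood P h612 :=
  irun_good hP T_612 (ic1 (G_646 hP) ic0)
theorem G_611 (hP : P.ok) : IGood P h611 :=
  irun_good hP T_611 ic0
theorem G_610 (hP : P.ok) : IGood P h610 :=
  irun_good hP T_610 (ic1 (G_642 hP) (ic1 (G_643 hP) (ic1 (G_644 hP) (ic1 (G_645 hP) ic0))))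
theorem G_609 (hP : P.ok) : IGood P h609 :=
  irun_good hP T_609 (ic1 (G_641 hP) ic0)
theorem G_608 (hP : P.ok) : IGood P h608 :=
  irun_good hP T_608 ic0
theorem G_607 (hP : P.ok) : IGood P h607 :=
  irun_good hP T_607 ic0
theorem G_606 (hP : P.ok) : IGood P h606 :=
  irun_good hP T_606 (ic1 (G_638 hP) (ic1 (G_639 hP) (ic1 (G_640 hP) ic0)))
theorem G_605 (hP : P.ok) : IGood P h605 :=
  irun_good hP T_605 (ic1 (G_637 hP) ic0)
theorem G_604 (hP : P.ok) : IGood P h604 :=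
  irun_good hP T_604 ic0
theorem G_603 (hP : P.ok) : IGood P h603 :=
  irun_good hP T_603 ic0
theorem G_602 (hP : P.ok) : IGood P h602 :=
  irun_good hP T_602 ic0
theorem G_601 (hP : P.ok) : IGood P h601 :=
  irun_good hP T_601 (ic1 (G_635 hP) (ic1 (G_636 hP) ic0))
theorem G_600 (hP : P.ok) : IGood P h600 :=
  irun_good hP T_600 (ic1 (G_632 hP) (ic1 (G_633 hP) (ic1 (G_634 hP) ic0)))
theorem G_599 (hP : P.ok) : IGood P h599 :=
  irun_good hP T_599 ic0
theorem G_598 (hP : P.ok) : IGood P h598 :=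
  irun_good hP T_598 ic0
theorem G_597 (hP : P.ok) : IGood P h597 :=
  irun_good hP T_597 ic0
theorem G_596 (hP : P.ok) : IGood P h596 :=
  irun_good hP T_596 (ic1 (G_630 hP) (ic1 (G_631 hP) ic0))
theorem G_595 (hP : P.ok) : IGood P h595 :=
  irun_good hP T_595 ic0
theorem G_594 (hP : P.ok) : IGood P h594 :=
  irun_good hP T_594 ic0
theorem G_593 (hP : P.ok) : IGood P h593 :=
  irun_good hP T_593 (ic1 (G_629 hP) ic0)
theorem G_592 (hP : P.ok) : IGood P h592 :=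
  irun_good hP T_592 (ic1 (G_627 hP) (ic1 (G_628 hP) ic0))
theorem G_591 (hP : P.ok) : IGood P h591 :=
  irun_good hP T_591 ic0
theorem G_590 (hP : P.ok) : IGood P h590 :=
  irun_good hP T_590 ic0
theorem G_589 (hP : P.ok) : IGood P h589 :=
  irun_good hP T_589 (ic1 (G_624 hP) (ic1 (G_625 hP) (ic1 (G_626 hP) ic0)))
theorem G_588 (hP : P.ok) : IGood P h588 :=
  irun_good hP T_588 (ic1 (G_623 hP) ic0)
theorem G_587 (hP : P.ok) : IGood P h587 :=
  irun_good hP T_587 (ic1 (G_621 hP) (ic1 (G_622 hP) ic0))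
theorem G_586 (hP : P.ok) : IGood P h586 :=
  irun_good hP T_586 ic0
theorem G_585 (hP : P.ok) : IGood P h585 :=
  irun_good hP T_585 ic0
theorem G_584 (hP : P.ok) : IGood P h584 :=
  irun_good hP T_584 ic0
theorem G_583 (hP : P.ok) : IGood P h583 :=
  irun_good hP T_583 ic0
theorem G_582 (hP : P.ok) : IGood P h582 :=
  irun_good hP T_582 (ic1 (G_620 hP) ic0)
theorem G_581 (hP : P.ok) : IGood P h581 :=
  irun_good hP T_581 (ic1 (G_619 hP) ic0)
theorem G_580 (hP : P.ok) : IGood P h580 :=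
  irun_good hP T_580 (ic1 (G_615 hP) (ic1 (G_616 hP) (ic1 (G_617 hP) (ic1 (G_618 hP) ic0))))
theorem G_579 (hP : P.ok) : IGood P h579 :=
  irun_good hP T_579 ic0
theorem G_578 (hP : P.ok) : IGood P h578 :=
  irun_good hP T_578 ic0
theorem G_577 (hP : P.ok) : IGood P h577 :=
  irun_good hP T_577 (ic1 (G_614 hP) ic0)
theorem G_576 (hP : P.ok) : IGood P h576 :=
  irun_good hP T_576 (ic1 (G_613 hP) ic0)
theorem G_575 (hP : P.ok) : IGood P h575 :=
  irun_good hP T_575 ic0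
theorem G_574 (hP : P.ok) : IGood P h574 :=
  irun_good hP T_574 ic0
theorem G_573 (hP : P.ok) : IGood P h573 :=
  irun_good hP T_573 (ic1 (G_610 hP) (ic1 (G_611 hP) (ic1 (G_612 hP) ic0)))
theorem G_572 (hP : P.ok) : IGood P h572 :=
  irun_good hP T_572 (ic1 (G_609 hP) ic0)
theorem G_571 (hP : P.ok) : IGood P h571 :=
  irun_good hP T_571 (ic1 (G_603 hP) (ic1 (G_604 hP) (ic1 (G_605 hP) (ic1 (G_606 hP) (ic1 (G_607 hP) (ic1 (G_608 hP) ic0))))))
theorem G_570 (hP : P.ok) : IGood P h570 :=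
  irun_good hP T_570 (ic1 (G_601 hP) (ic1 (G_602 hP) ic0))
theorem G_569 (hP : P.ok) : IGood P h569 :=
  irun_good hP T_569 (ic1 (G_598 hP) (ic1 (G_599 hP) (ic1 (G_600 hP) ic0)))
theorem G_568 (hP : P.ok) : IGood P h568 :=
  irun_good hP T_568 ic0
theorem G_567 (hP : P.ok) : IGood P h567 :=
  irun_good hP T_567 ic0
theorem G_566 (hP : P.ok) : IGood P h566 :=
  irun_good hP T_566 ic0
theorem G_565 (hP : P.ok) : IGood P h565 :=
  irun_good hP T_565 ic0
theorem G_564 (hP : P.ok) : IGood P h564 :=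
  irun_good hP T_564 (ic1 (G_597 hP) ic0)
theorem G_563 (hP : P.ok) : IGood P h563 :=
  irun_good hP T_563 ic0
theorem G_562 (hP : P.ok) : IGood P h562 :=
  irun_good hP T_562 (ic1 (G_596 hP) ic0)
theorem G_561 (hP : P.ok) : IGood P h561 :=
  irun_good hP T_561 (ic1 (G_594 hP) (ic1 (G_595 hP) ic0))
theorem G_560 (hP : P.ok) : IGood P h560 :=
  irun_good hP T_560 ic0
theorem G_559 (hP : P.ok) : IGood P h559 :=
  irun_good hP T_559 ic0
theorem G_558 (hP : P.ok) : IGood P h558 :=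
  irun_good hP T_558 (ic1 (G_593 hP) ic0)
theorem G_557 (hP : P.ok) : IGood P h557 :=
  irun_good hP T_557 (ic1 (G_592 hP) ic0)
theorem G_556 (hP : P.ok) : IGood P h556 :=
  irun_good hP T_556 (ic1 (G_589 hP) (ic1 (G_590 hP) (ic1 (G_591 hP) ic0)))
theorem G_555 (hP : P.ok) : IGood P h555 :=
  irun_good hP T_555 (ic1 (G_588 hP) ic0)
theorem G_554 (hP : P.ok) : IGood P h554 :=
  irun_good hP T_554 (ic1 (G_586 hP) (ic1 (G_587 hP) ic0))
theorem G_553 (hP : P.ok) : IGood P h553 :=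
  irun_good hP T_553 (ic1 (G_584 hP) (ic1 (G_585 hP) ic0))
theorem G_552 (hP : P.ok) : IGood P h552 :=
  irun_good hP T_552 (ic1 (G_583 hP) ic0)
theorem G_551 (hP : P.ok) : IGood P h551 :=
  irun_good hP T_551 (ic1 (G_582 hP) ic0)
theorem G_550 (hP : P.ok) : IGood P h550 :=
  irun_good hP T_550 (ic1 (G_580 hP) (ic1 (G_581 hP) ic0))
theorem G_549 (hP : P.ok) : IGood P h549 :=
  irun_good hP T_549 (ic1 (G_579 hP) ic0)
theorem G_548 (hP : P.ok) : IGood P h548 :=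
  irun_good hP T_548 (ic1 (G_577 hP) (ic1 (G_578 hP) ic0))
theorem G_547 (hP : P.ok) : IGood P h547 :=
  irun_good hP T_547 ic0
theorem G_546 (hP : P.ok) : IGood P h546 :=
  irun_good hP T_546 ic0
theorem G_545 (hP : P.ok) : IGood P h545 :=
  irun_good hP T_545 (ic1 (G_576 hP) ic0)
theorem G_544 (hP : P.ok) : IGood P h544 :=
  irun_good hP T_544 (ic1 (G_574 hP) (ic1 (G_575 hP) ic0))
theorem G_543 (hP : P.ok) : IGood P h543 :=
  irun_good hP T_543 ic0
theorem G_542 (hP : P.ok) : IGood P h542 :=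
  irun_good hP T_542 ic0
theorem G_541 (hP : P.ok) : IGood P h541 :=
  irun_good hP T_541 ic0
theorem G_540 (hP : P.ok) : IGood P h540 :=
  irun_good hP T_540 (ic1 (G_572 hP) (ic1 (G_573 hP) ic0))
theorem G_539 (hP : P.ok) : IGood P h539 :=
  irun_good hP T_539 (ic1 (G_570 hP) (ic1 (G_571 hP) ic0))
theorem G_538 (hP : P.ok) : IGood P h538 :=
  irun_good hP T_538 (ic1 (G_569 hP) ic0)
theorem G_537 (hP : P.ok) : IGood P h537 :=
  irun_good hP T_537 (ic1 (G_568 hP) ic0)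
theorem G_536 (hP : P.ok) : IGood P h536 :=
  irun_good hP T_536 (ic1 (G_567 hP) ic0)
theorem G_535 (hP : P.ok) : IGood P h535 :=
  irun_good hP T_535 ic0
theorem G_534 (hP : P.ok) : IGood P h534 :=
  irun_good hP T_534 ic0
theorem G_533 (hP : P.ok) : IGood P h533 :=
  irun_good hP T_533 ic0
theorem G_532 (hP : P.ok) : IGood P h532 :=
  irun_good hP T_532 ic0
theorem G_531 (hP : P.ok) : IGood P h531 :=
  irun_good hP T_531 ic0
theorem G_530 (hP : P.ok) : IGood P h530 :=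
  irun_good hP T_530 ic0
theorem G_529 (hP : P.ok) : IGood P h529 :=
  irun_good hP T_529 (ic1 (G_566 hP) ic0)
theorem G_528 (hP : P.ok) : IGood P h528 :=
  irun_good hP T_528 ic0
theorem G_527 (hP : P.ok) : IGood P h527 :=
  irun_good hP T_527 ic0
theorem G_526 (hP : P.ok) : IGood P h526 :=
  irun_good hP T_526 (ic1 (G_564 hP) (ic1 (G_565 hP) ic0))
theorem G_525 (hP : P.ok) : IGood P h525 :=
  irun_good hP T_525 (ic1 (G_563 hP) ic0)
theorem G_524 (hP : P.ok) : IGood P h524 :=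
  irun_good hP T_524 ic0
theorem G_523 (hP : P.ok) : IGood P h523 :=
  irun_good hP T_523 ic0
theorem G_522 (hP : P.ok) : IGood P h522 :=
  irun_good hP T_522 (ic1 (G_562 hP) ic0)
theorem G_521 (hP : P.ok) : IGood P h521 :=
  irun_good hP T_521 ic0
theorem G_520 (hP : P.ok) : IGood P h520 :=
  irun_good hP T_520 (ic1 (G_560 hP) (ic1 (G_561 hP) ic0))
theorem G_519 (hP : P.ok) : IGood P h519 :=
  irun_good hP T_519 ic0
theorem G_518 (hP : P.ok) : IGood P h518 :=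
  irun_good hP T_518 ic0
theorem G_517 (hP : P.ok) : IGood P h517 :=
  irun_good hP T_517 (ic1 (G_557 hP) (ic1 (G_558 hP) (ic1 (G_559 hP) ic0)))
theorem G_516 (hP : P.ok) : IGood P h516 :=
  irun_good hP T_516 (ic1 (G_556 hP) ic0)
theorem G_515 (hP : P.ok) : IGood P h515 :=
  irun_good hP T_515 ic0
theorem G_514 (hP : P.ok) : IGood P h514 :=
  irun_good hP T_514 (ic1 (G_551 hP) (ic1 (G_552 hP) (ic1 (G_553 hP) (ic1 (G_554 hP) (ic1 (G_555 hP) ic0)))))
theorem G_513 (hP : P.ok) : IGood P h513 :=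
  irun_good hP T_513 (ic1 (G_546 hP) (ic1 (G_547 hP) (ic1 (G_548 hP) (ic1 (G_549 hP) (ic1 (G_550 hP) ic0)))))
theorem G_512 (hP : P.ok) : IGood P h512 :=
  irun_good hP T_512 ic0
theorem G_511 (hP : P.ok) : IGood P h511 :=
  irun_good hP T_511 (ic1 (G_545 hP) ic0)
theorem G_510 (hP : P.ok) : IGood P h510 :=
  irun_good hP T_510 (ic1 (G_544 hP) ic0)
theorem G_509 (hP : P.ok) : IGood P h509 :=
  irun_good hP T_509 (ic1 (G_543 hP) ic0)
theorem G_508 (hP : P.ok) : IGood P h508 :=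
  irun_good hP T_508 ic0
theorem G_507 (hP : P.ok) : IGood P h507 :=
  irun_good hP T_507 (ic1 (G_542 hP) ic0)
theorem G_506 (hP : P.ok) : IGood P h506 :=
  irun_good hP T_506 (ic1 (G_536 hP) (ic1 (G_537 hP) (ic1 (G_538 hP) (ic1 (G_539 hP) (ic1 (G_540 hP) (ic1 (G_541 hP) ic0))))))
theorem G_505 (hP : P.ok) : IGood P h505 :=
  irun_good hP T_505 (ic1 (G_535 hP) ic0)
theorem G_504 (hP : P.ok) : IGood P h504 :=
  irun_good hP T_504 ic0
theorem G_503 (hP : P.ok) : IGood P h503 :=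
  irun_good hP T_503 ic0
theorem G_502 (hP : P.ok) : IGood P h502 :=
  irun_good hP T_502 (ic1 (G_533 hP) (ic1 (G_534 hP) ic0))
theorem G_501 (hP : P.ok) : IGood P h501 :=
  irun_good hP T_501 (ic1 (G_531 hP) (ic1 (G_532 hP) ic0))
theorem G_500 (hP : P.ok) : IGood P h500 :=
  irun_good hP T_500 ic0
theorem G_499 (hP : P.ok) : IGood P h499 :=
  irun_good hP T_499 (ic1 (G_530 hP) ic0)
theorem G_498 (hP : P.ok) : IGood P h498 :=
  irun_good hP T_498 ic0
theorem G_497 (hP : P.ok) : IGood P h497 :=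
  irun_good hP T_497 ic0
theorem G_496 (hP : P.ok) : IGood P h496 :=
  irun_good hP T_496 (ic1 (G_529 hP) ic0)
theorem G_495 (hP : P.ok) : IGood P h495 :=
  irun_good hP T_495 (ic1 (G_527 hP) (ic1 (G_528 hP) ic0))
theorem G_494 (hP : P.ok) : IGood P h494 :=
  irun_good hP T_494 (ic1 (G_523 hP) (ic1 (G_524 hP) (ic1 (G_525 hP) (ic1 (G_526 hP) ic0))))
theorem G_493 (hP : P.ok) : IGood P h493 :=
  irun_good hP T_493 (ic1 (G_520 hP) (ic1 (G_521 hP) (ic1 (G_522 hP) ic0)))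
theorem G_492 (hP : P.ok) : IGood P h492 :=
  irun_good hP T_492 (ic1 (G_519 hP) ic0)
theorem G_491 (hP : P.ok) : IGood P h491 :=
  irun_good hP T_491 (ic1 (G_516 hP) (ic1 (G_517 hP) (ic1 (G_518 hP) ic0)))
theorem G_490 (hP : P.ok) : IGood P h490 :=
  irun_good hP T_490 (ic1 (G_513 hP) (ic1 (G_514 hP) (ic1 (G_515 hP) ic0)))
theorem G_489 (hP : P.ok) : IGood P h489 :=
  irun_good hP T_489 ic0
theorem G_488 (hP : P.ok) : IGood P h488 :=
  irun_good hP T_488 (ic1 (G_512 hP) ic0)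
theorem G_487 (hP : P.ok) : IGood P h487 :=
  irun_good hP T_487 ic0
theorem G_486 (hP : P.ok) : IGood P h486 :=
  irun_good hP T_486 (ic1 (G_510 hP) (ic1 (G_511 hP) ic0))
theorem G_485 (hP : P.ok) : IGood P h485 :=
  irun_good hP T_485 ic0
theorem G_484 (hP : P.ok) : IGood P h484 :=
  irun_good hP T_484 ic0
theorem G_483 (hP : P.ok) : IGood P h483 :=
  irun_good hP T_483 ic0
theorem G_482 (hP : P.ok) : IGood P h482 :=
  irun_good hP T_482 (ic1 (G_508 hP) (ic1 (G_509 hP) ic0))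
theorem G_481 (hP : P.ok) : IGood P h481 :=
  irun_good hP T_481 (ic1 (G_506 hP) (ic1 (G_507 hP) ic0))
theorem G_480 (hP : P.ok) : IGood P h480 :=
  irun_good hP T_480 ic0
theorem G_479 (hP : P.ok) : IGood P h479 :=
  irun_good hP T_479 ic0
theorem G_478 (hP : P.ok) : IGood P h478 :=
  irun_good hP T_478 ic0
theorem G_477 (hP : P.ok) : IGood P h477 :=
  irun_good hP T_477 ic0
theorem G_476 (hP : P.ok) : IGood P h476 :=
  irun_good hP T_476 ic0
theorem G_475 (hP : P.ok) : IGood P h475 :=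
  irun_good hP T_475 ic0
theorem G_474 (hP : P.ok) : IGood P h474 :=
  irun_good hP T_474 ic0
theorem G_473 (hP : P.ok) : IGood P h473 :=
  irun_good hP T_473 (ic1 (G_505 hP) ic0)
theorem G_472 (hP : P.ok) : IGood P h472 :=
  irun_good hP T_472 (ic1 (G_501 hP) (ic1 (G_502 hP) (ic1 (G_503 hP) (ic1 (G_504 hP) ic0))))
theorem G_471 (hP : P.ok) : IGood P h471 :=
  irun_good hP T_471 ic0
theorem G_470 (hP : P.ok) : IGood P h470 :=
  irun_good hP T_470 (ic1 (G_500 hP) ic0)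
theorem G_469 (hP : P.ok) : IGood P h469 :=
  irun_good hP T_469 (ic1 (G_497 hP) (ic1 (G_498 hP) (ic1 (G_499 hP) ic0)))
theorem G_468 (hP : P.ok) : IGood P h468 :=
  irun_good hP T_468 (ic1 (G_495 hP) (ic1 (G_496 hP) ic0))
theorem G_467 (hP : P.ok) : IGood P h467 :=
  irun_good hP T_467 (ic1 (G_493 hP) (ic1 (G_494 hP) ic0))
theorem G_466 (hP : P.ok) : IGood P h466 :=
  irun_good hP T_466 ic0
theorem G_465 (hP : P.ok) : IGood P h465 :=
  irun_good hP T_465 ic0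
theorem G_464 (hP : P.ok) : IGood P h464 :=
  irun_good hP T_464 ic0
theorem G_463 (hP : P.ok) : IGood P h463 :=
  irun_good hP T_463 (ic1 (G_491 hP) (ic1 (G_492 hP) ic0))
theorem G_462 (hP : P.ok) : IGood P h462 :=
  irun_good hP T_462 (ic1 (G_490 hP) ic0)
theorem G_461 (hP : P.ok) : IGood P h461 :=
  irun_good hP T_461 ic0
theorem G_460 (hP : P.ok) : IGood P h460 :=
  irun_good hP T_460 ic0
theorem G_459 (hP : P.ok) : IGood P h459 :=
  irun_good hP T_459 ic0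
theorem G_458 (hP : P.ok) : IGood P h458 :=
  irun_good hP T_458 ic0
theorem G_457 (hP : P.ok) : IGood P h457 :=
  irun_good hP T_457 ic0
theorem G_456 (hP : P.ok) : IGood P h456 :=
  irun_good hP T_456 (ic1 (G_489 hP) ic0)
theorem G_455 (hP : P.ok) : IGood P h455 :=
  irun_good hP T_455 ic0
theorem G_454 (hP : P.ok) : IGood P h454 :=
  irun_good hP T_454 (ic1 (G_488 hP) ic0)
theorem G_453 (hP : P.ok) : IGood P h453 :=
  irun_good hP T_453 ic0
theorem G_452 (hP : P.ok) : IGood P h452 :=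
  irun_good hP T_452 (ic1 (G_486 hP) (ic1 (G_487 hP) ic0))
theorem G_451 (hP : P.ok) : IGood P h451 :=
  irun_good hP T_451 (ic1 (G_481 hP) (ic1 (G_482 hP) (ic1 (G_483 hP) (ic1 (G_484 hP) (ic1 (G_485 hP) ic0)))))
theorem G_450 (hP : P.ok) : IGood P h450 :=
  irun_good hP T_450 (ic1 (G_477 hP) (ic1 (G_478 hP) (ic1 (G_479 hP) (ic1 (G_480 hP) ic0))))
theorem G_449 (hP : P.ok) : IGood P h449 :=
  irun_good hP T_449 (ic1 (G_476 hP) ic0)
theorem G_448 (hP : P.ok) : IGood P h448 :=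
  irun_good hP T_448 ic0
theorem G_447 (hP : P.ok) : IGood P h447 :=
  irun_good hP T_447 (ic1 (G_474 hP) (ic1 (G_475 hP) ic0))
theorem G_446 (hP : P.ok) : IGood P h446 :=
  irun_good hP T_446 ic0
theorem G_445 (hP : P.ok) : IGood P h445 :=
  irun_good hP T_445 (ic1 (G_473 hP) ic0)
theorem G_444 (hP : P.ok) : IGood P h444 :=
  irun_good hP T_444 (ic1 (G_468 hP) (ic1 (G_469 hP) (ic1 (G_470 hP) (ic1 (G_471 hP) (ic1 (G_472 hP) ic0)))))
theorem G_443 (hP : P.ok) : IGood P h443 :=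
  irun_good hP T_443 (ic1 (G_467 hP) ic0)
theorem G_442 (hP : P.ok) : IGood P h442 :=
  irun_good hP T_442 ic0
theorem G_441 (hP : P.ok) : IGood P h441 :=
  irun_good hP T_441 ic0
theorem G_440 (hP : P.ok) : IGood P h440 :=
  irun_good hP T_440 (ic1 (G_466 hP) ic0)
theorem G_439 (hP : P.ok) : IGood P h439 :=
  irun_good hP T_439 ic0
theorem G_438 (hP : P.ok) : IGood P h438 :=
  irun_good hP T_438 ic0
theorem G_437 (hP : P.ok) : IGood P h437 :=
  irun_good hP T_437 ic0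
theorem G_436 (hP : P.ok) : IGood P h436 :=
  irun_good hP T_436 (ic1 (G_465 hP) ic0)
theorem G_435 (hP : P.ok) : IGood P h435 :=
  irun_good hP T_435 ic0
theorem G_434 (hP : P.ok) : IGood P h434 :=
  irun_good hP T_434 (ic1 (G_464 hP) ic0)
theorem G_433 (hP : P.ok) : IGood P h433 :=
  irun_good hP T_433 ic0
theorem G_432 (hP : P.ok) : IGood P h432 :=
  irun_good hP T_432 ic0
theorem G_431 (hP : P.ok) : IGood P h431 :=
  irun_good hP T_431 (ic1 (G_463 hP) ic0)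
theorem G_430 (hP : P.ok) : IGood P h430 :=
  irun_good hP T_430 ic0
theorem G_429 (hP : P.ok) : IGood P h429 :=
  irun_good hP T_429 (ic1 (G_462 hP) ic0)
theorem G_428 (hP : P.ok) : IGood P h428 :=
  irun_good hP T_428 ic0
theorem G_427 (hP : P.ok) : IGood P h427 :=
  irun_good hP T_427 (ic1 (G_458 hP) (ic1 (G_459 hP) (ic1 (G_460 hP) (ic1 (G_461 hP) ic0))))
theorem G_426 (hP : P.ok) : IGood P h426 :=
  irun_good hP T_426 (ic1 (G_457 hP) ic0)
theorem G_425 (hP : P.ok) : IGood P h425 :=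
  irun_good hP T_425 (ic1 (G_456 hP) ic0)
theorem G_424 (hP : P.ok) : IGood P h424 :=
  irun_good hP T_424 (ic1 (G_453 hP) (ic1 (G_454 hP) (ic1 (G_455 hP) ic0)))
theorem G_423 (hP : P.ok) : IGood P h423 :=
  irun_good hP T_423 ic0
theorem G_422 (hP : P.ok) : IGood P h422 :=
  irun_good hP T_422 (ic1 (G_450 hP) (ic1 (G_451 hP) (ic1 (G_452 hP) ic0)))
theorem G_421 (hP : P.ok) : IGood P h421 :=
  irun_good hP T_421 (ic1 (G_449 hP) ic0)
theorem G_420 (hP : P.ok) : IGood P h420 :=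
  irun_good hP T_420 ic0
theorem G_419 (hP : P.ok) : IGood P h419 :=
  irun_good hP T_419 ic0
theorem G_418 (hP : P.ok) : IGood P h418 :=
  irun_good hP T_418 ic0
theorem G_417 (hP : P.ok) : IGood P h417 :=
  irun_good hP T_417 ic0
theorem G_416 (hP : P.ok) : IGood P h416 :=
  irun_good hP T_416 (ic1 (G_448 hP) ic0)
theorem G_415 (hP : P.ok) : IGood P h415 :=
  irun_good hP T_415 ic0
theorem G_414 (hP : P.ok) : IGood P h414 :=
  irun_good hP T_414 (ic1 (G_446 hP) (ic1 (G_447 hP) ic0))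
theorem G_413 (hP : P.ok) : IGood P h413 :=
  irun_good hP T_413 ic0
theorem G_412 (hP : P.ok) : IGood P h412 :=
  irun_good hP T_412 (ic1 (G_445 hP) ic0)
theorem G_411 (hP : P.ok) : IGood P h411 :=
  irun_good hP T_411 ic0
theorem G_410 (hP : P.ok) : IGood P h410 :=
  irun_good hP T_410 ic0
theorem G_409 (hP : P.ok) : IGood P h409 :=
  irun_good hP T_409 (ic1 (G_443 hP) (ic1 (G_444 hP) ic0))
theorem G_408 (hP : P.ok) : IGood P h408 :=
  irun_good hP T_408 ic0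
theorem G_407 (hP : P.ok) : IGood P h407 :=
  irun_good hP T_407 ic0
theorem G_406 (hP : P.ok) : IGood P h406 :=
  irun_good hP T_406 (ic1 (G_441 hP) (ic1 (G_442 hP) ic0))
theorem G_405 (hP : P.ok) : IGood P h405 :=
  irun_good hP T_405 (ic1 (G_439 hP) (ic1 (G_440 hP) ic0))
theorem G_404 (hP : P.ok) : IGood P h404 :=
  irun_good hP T_404 (ic1 (G_438 hP) ic0)
theorem G_403 (hP : P.ok) : IGood P h403 :=
  irun_good hP T_403 ic0
theorem G_402 (hP : P.ok) : IGood P h402 :=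
  irun_good hP T_402 ic0
theorem G_401 (hP : P.ok) : IGood P h401 :=
  irun_good hP T_401 ic0
theorem G_400 (hP : P.ok) : IGood P h400 :=
  irun_good hP T_400 (ic1 (G_435 hP) (ic1 (G_436 hP) (ic1 (G_437 hP) ic0)))
theorem G_399 (hP : P.ok) : IGood P h399 :=
  irun_good hP T_399 ic0
theorem G_398 (hP : P.ok) : IGood P h398 :=
  irun_good hP T_398 (ic1 (G_434 hP) ic0)
theorem G_397 (hP : P.ok) : IGood P h397 :=
  irun_good hP T_397 (ic1 (G_433 hP) ic0)
theorem G_396 (hP : P.ok) : IGood P h396 :=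
  irun_good hP T_396 ic0
theorem G_395 (hP : P.ok) : IGood P h395 :=
  irun_good hP T_395 (ic1 (G_431 hP) (ic1 (G_432 hP) ic0))
theorem G_394 (hP : P.ok) : IGood P h394 :=
  irun_good hP T_394 ic0
theorem G_393 (hP : P.ok) : IGood P h393 :=
  irun_good hP T_393 (ic1 (G_428 hP) (ic1 (G_429 hP) (ic1 (G_430 hP) ic0)))
theorem G_392 (hP : P.ok) : IGood P h392 :=
  irun_good hP T_392 (ic1 (G_427 hP) ic0)
theorem G_391 (hP : P.ok) : IGood P h391 :=
  irun_good hP T_391 ic0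
theorem G_390 (hP : P.ok) : IGood P h390 :=
  irun_good hP T_390 (ic1 (G_421 hP) (ic1 (G_422 hP) (ic1 (G_423 hP) (ic1 (G_424 hP) (ic1 (G_425 hP) (ic1 (G_426 hP) ic0))))))
theorem G_389 (hP : P.ok) : IGood P h389 :=
  irun_good hP T_389 (ic1 (G_420 hP) ic0)
theorem G_388 (hP : P.ok) : IGood P h388 :=
  irun_good hP T_388 ic0
theorem G_387 (hP : P.ok) : IGood P h387 :=
  irun_good hP T_387 (ic1 (G_419 hP) ic0)
theorem G_386 (hP : P.ok) : IGood P h386 :=
  irun_good hP T_386 (ic1 (G_417 hP) (ic1 (G_418 hP) ic0))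
theorem G_385 (hP : P.ok) : IGood P h385 :=
  irun_good hP T_385 (ic1 (G_414 hP) (ic1 (G_415 hP) (ic1 (G_416 hP) ic0)))
theorem G_384 (hP : P.ok) : IGood P h384 :=
  irun_good hP T_384 (ic1 (G_413 hP) ic0)
theorem G_383 (hP : P.ok) : IGood P h383 :=
  irun_good hP T_383 (ic1 (G_412 hP) ic0)
theorem G_382 (hP : P.ok) : IGood P h382 :=
  irun_good hP T_382 ic0
theorem G_381 (hP : P.ok) : IGood P h381 :=
  irun_good hP T_381 (ic1 (G_409 hP) (ic1 (G_410 hP) (ic1 (G_411 hP) ic0)))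
theorem G_380 (hP : P.ok) : IGood P h380 :=
  irun_good hP T_380 (ic1 (G_408 hP) ic0)
theorem G_379 (hP : P.ok) : IGood P h379 :=
  irun_good hP T_379 ic0
theorem G_378 (hP : P.ok) : IGood P h378 :=
  irun_good hP T_378 (ic1 (G_406 hP) (ic1 (G_407 hP) ic0))
theorem G_377 (hP : P.ok) : IGood P h377 :=
  irun_good hP T_377 ic0
theorem G_376 (hP : P.ok) : IGood P h376 :=
  irun_good hP T_376 ic0
theorem G_375 (hP : P.ok) : IGood P h375 :=
  irun_good hP T_375 ic0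
theorem G_374 (hP : P.ok) : IGood P h374 :=
  irun_good hP T_374 (ic1 (G_405 hP) ic0)
theorem G_373 (hP : P.ok) : IGood P h373 :=
  irun_good hP T_373 (ic1 (G_403 hP) (ic1 (G_404 hP) ic0))
theorem G_372 (hP : P.ok) : IGood P h372 :=
  irun_good hP T_372 (ic1 (G_402 hP) ic0)
theorem G_371 (hP : P.ok) : IGood P h371 :=
  irun_good hP T_371 ic0
theorem G_370 (hP : P.ok) : IGood P h370 :=
  irun_good hP T_370 (ic1 (G_401 hP) ic0)
theorem G_369 (hP : P.ok) : IGood P h369 :=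
  irun_good hP T_369 (ic1 (G_400 hP) ic0)
theorem G_368 (hP : P.ok) : IGood P h368 :=
  irun_good hP T_368 (ic1 (G_397 hP) (ic1 (G_398 hP) (ic1 (G_399 hP) ic0)))
theorem G_367 (hP : P.ok) : IGood P h367 :=
  irun_good hP T_367 (ic1 (G_394 hP) (ic1 (G_395 hP) (ic1 (G_396 hP) ic0)))
theorem G_366 (hP : P.ok) : IGood P h366 :=
  irun_good hP T_366 (ic1 (G_393 hP) ic0)
theorem G_365 (hP : P.ok) : IGood P h365 :=
  irun_good hP T_365 (ic1 (G_389 hP) (ic1 (G_390 hP) (ic1 (G_391 hP) (ic1 (G_392 hP) ic0))))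
theorem G_364 (hP : P.ok) : IGood P h364 :=
  irun_good hP T_364 (ic1 (G_388 hP) ic0)
theorem G_363 (hP : P.ok) : IGood P h363 :=
  irun_good hP T_363 ic0
theorem G_362 (hP : P.ok) : IGood P h362 :=
  irun_good hP T_362 ic0
theorem G_361 (hP : P.ok) : IGood P h361 :=
  irun_good hP T_361 (ic1 (G_387 hP) ic0)
theorem G_360 (hP : P.ok) : IGood P h360 :=
  irun_good hP T_360 (ic1 (G_383 hP) (ic1 (G_384 hP) (ic1 (G_385 hP) (ic1 (G_386 hP) ic0))))
theorem G_359 (hP : P.ok) : IGood P h359 :=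
  irun_good hP T_359 (ic1 (G_382 hP) ic0)
theorem G_358 (hP : P.ok) : IGood P h358 :=
  irun_good hP T_358 (ic1 (G_381 hP) ic0)
theorem G_357 (hP : P.ok) : IGood P h357 :=
  irun_good hP T_357 (ic1 (G_380 hP) ic0)
theorem G_356 (hP : P.ok) : IGood P h356 :=
  irun_good hP T_356 (ic1 (G_379 hP) ic0)
theorem G_355 (hP : P.ok) : IGood P h355 :=
  irun_good hP T_355 (ic1 (G_376 hP) (ic1 (G_377 hP) (ic1 (G_378 hP) ic0)))
theorem G_354 (hP : P.ok) : IGood P h354 :=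
  irun_good hP T_354 (ic1 (G_375 hP) ic0)
theorem G_353 (hP : P.ok) : IGood P h353 :=
  irun_good hP T_353 ic0
theorem G_352 (hP : P.ok) : IGood P h352 :=
  irun_good hP T_352 (ic1 (G_373 hP) (ic1 (G_374 hP) ic0))
theorem G_351 (hP : P.ok) : IGood P h351 :=
  irun_good hP T_351 (ic1 (G_371 hP) (ic1 (G_372 hP) ic0))
theorem G_350 (hP : P.ok) : IGood P h350 :=
  irun_good hP T_350 (ic1 (G_368 hP) (ic1 (G_369 hP) (ic1 (G_370 hP) ic0)))
theorem G_349 (hP : P.ok) : IGood P h349 :=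
  irun_good hP T_349 ic0
theorem G_348 (hP : P.ok) : IGood P h348 :=
  irun_good hP T_348 ic0
theorem G_347 (hP : P.ok) : IGood P h347 :=
  irun_good hP T_347 (ic1 (G_365 hP) (ic1 (G_366 hP) (ic1 (G_367 hP) ic0)))
theorem G_346 (hP : P.ok) : IGood P h346 :=
  irun_good hP T_346 (ic1 (G_364 hP) ic0)
theorem G_345 (hP : P.ok) : IGood P h345 :=
  irun_good hP T_345 (ic1 (G_363 hP) ic0)
theorem G_344 (hP : P.ok) : IGood P h344 :=
  irun_good hP T_344 (ic1 (G_362 hP) ic0)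
theorem G_343 (hP : P.ok) : IGood P h343 :=
  irun_good hP T_343 ic0
theorem G_342 (hP : P.ok) : IGood P h342 :=
  irun_good hP T_342 (ic1 (G_361 hP) ic0)
theorem G_341 (hP : P.ok) : IGood P h341 :=
  irun_good hP T_341 (ic1 (G_358 hP) (ic1 (G_359 hP) (ic1 (G_360 hP) ic0)))
theorem G_340 (hP : P.ok) : IGood P h340 :=
  irun_good hP T_340 (ic1 (G_352 hP) (ic1 (G_353 hP) (ic1 (G_354 hP) (ic1 (G_355 hP) (ic1 (G_356 hP) (ic1 (G_357 hP) ic0))))))
theorem G_339 (hP : P.ok) : IGood P h339 :=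
  irun_good hP T_339 (ic1 (G_350 hP) (ic1 (G_351 hP) ic0))
theorem G_338 (hP : P.ok) : IGood P h338 :=
  irun_good hP T_338 (ic1 (G_348 hP) (ic1 (G_349 hP) ic0))
theorem G_337 (hP : P.ok) : IGood P h337 :=
  irun_good hP T_337 (ic1 (G_343 hP) (ic1 (G_344 hP) (ic1 (G_345 hP) (ic1 (G_346 hP) (ic1 (G_347 hP) ic0)))))
theorem G_336 (hP : P.ok) : IGood P h336 :=
  irun_good hP T_336 (ic1 (G_341 hP) (ic1 (G_342 hP) ic0))
theorem G_335 (hP : P.ok) : IGood P h335 :=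
  irun_good hP T_335 (ic1 (G_336 hP) (ic1 (G_337 hP) (ic1 (G_338 hP) (ic1 (G_339 hP) (ic1 (G_340 hP) ic0)))))
theorem G_334 (hP : P.ok) : IBad P (nat_lit 0x82468a007db9760081dca0007e2360007edcba007edcba0081a6d0007e59300081a6d0007e5930008113f0007eec10008113f0007eec10) :=
  iroot_bad hP T_334 (ic1 (G_335 hP) ic0)
theorem G_333 (hP : P.ok) : IGood P h333 :=
  irun_good hP T_333 ic0
theorem G_332 (hP : P.ok) : IGood P h332 :=
  irun_good hP T_332 (ic1 (G_333 hP) ic0)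
theorem G_331 (hP : P.ok) : IBad P (nat_lit 0x82468a007db9760081dca00081dca000800000007edcba0081a6d0007e59300081a6d0007e5930008113f0007eec10008113f0007eec10) :=
  iroot_bad hP T_331 (ic1 (G_332 hP) ic0)
theorem G_330 (hP : P.ok) : IBad P (nat_lit 0x82468a007db976007e2360007e236000800000007edcba0081a6d0007e59300081a6d0007e5930008113f0007eec10008113f0007eec10) :=
  iroot_bad hP T_330 ic0
theorem G_329 (hP : P.ok) : IBad P (nat_lit 0x82468a007db9760081dca0007e236000800000007edcba0081a6d00081a6d00081a6d0007e5930008113f0007eec10008113f0007eec10) :=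
  iroot_bad hP T_329 ic0
theorem G_328 (hP : P.ok) : IGood P h328 :=
  irun_good hP T_328 ic0
theorem G_327 (hP : P.ok) : IGood P h327 :=
  irun_good hP T_327 (ic1 (G_328 hP) ic0)
theorem G_326 (hP : P.ok) : IGood P h326 :=
  irun_good hP T_326 (ic1 (G_327 hP) ic0)
theorem G_325 (hP : P.ok) : IGood P h325 :=
  irun_good hP T_325 ic0
theorem G_324 (hP : P.ok) : IGood P h324 :=
  irun_good hP T_324 ic0
theorem G_323 (hP : P.ok) : IGood P h323 :=
  irun_good hP T_323 ic0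
theorem G_322 (hP : P.ok) : IGood P h322 :=
  irun_good hP T_322 ic0
theorem G_321 (hP : P.ok) : IGood P h321 :=
  irun_good hP T_321 ic0
theorem G_320 (hP : P.ok) : IGood P h320 :=
  irun_good hP T_320 (ic1 (G_326 hP) ic0)
theorem G_319 (hP : P.ok) : IGood P h319 :=
  irun_good hP T_319 (ic1 (G_325 hP) ic0)
theorem G_318 (hP : P.ok) : IGood P h318 :=
  irun_good hP T_318 (ic1 (G_324 hP) ic0)
theorem G_317 (hP : P.ok) : IGood P h317 :=
  irun_good hP T_317 (ic1 (G_323 hP) ic0)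
theorem G_316 (hP : P.ok) : IGood P h316 :=
  irun_good hP T_316 (ic1 (G_322 hP) ic0)
theorem G_315 (hP : P.ok) : IGood P h315 :=
  irun_good hP T_315 ic0
theorem G_314 (hP : P.ok) : IGood P h314 :=
  irun_good hP T_314 ic0
theorem G_313 (hP : P.ok) : IGood P h313 :=
  irun_good hP T_313 ic0
theorem G_312 (hP : P.ok) : IGood P h312 :=
  irun_good hP T_312 ic0
theorem G_311 (hP : P.ok) : IGood P h311 :=
  irun_good hP T_311 ic0
theorem G_310 (hP : P.ok) : IGood P h310 :=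
  irun_good hP T_310 ic0
theorem G_309 (hP : P.ok) : IGood P h309 :=
  irun_good hP T_309 ic0
theorem G_308 (hP : P.ok) : IGood P h308 :=
  irun_good hP T_308 ic0
theorem G_307 (hP : P.ok) : IGood P h307 :=
  irun_good hP T_307 (ic1 (G_321 hP) ic0)
theorem G_306 (hP : P.ok) : IGood P h306 :=
  irun_good hP T_306 ic0
theorem G_305 (hP : P.ok) : IGood P h305 :=
  irun_good hP T_305 ic0
theorem G_304 (hP : P.ok) : IGood P h304 :=
  irun_good hP T_304 ic0
theorem G_303 (hP : P.ok) : IGood P h303 :=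
  irun_good hP T_303 (ic1 (G_320 hP) ic0)
theorem G_302 (hP : P.ok) : IGood P h302 :=
  irun_good hP T_302 (ic1 (G_316 hP) (ic1 (G_317 hP) (ic1 (G_318 hP) (ic1 (G_319 hP) ic0))))
theorem G_301 (hP : P.ok) : IGood P h301 :=
  irun_good hP T_301 ic0
theorem G_300 (hP : P.ok) : IGood P h300 :=
  irun_good hP T_300 (ic1 (G_315 hP) ic0)
theorem G_299 (hP : P.ok) : IGood P h299 :=
  irun_good hP T_299 ic0
theorem G_298 (hP : P.ok) : IGood P h298 :=
  irun_good hP T_298 ic0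
theorem G_297 (hP : P.ok) : IGood P h297 :=
  irun_good hP T_297 (ic1 (G_313 hP) (ic1 (G_314 hP) ic0))
theorem G_296 (hP : P.ok) : IGood P h296 :=
  irun_good hP T_296 (ic1 (G_312 hP) ic0)
theorem G_295 (hP : P.ok) : IGood P h295 :=
  irun_good hP T_295 ic0
theorem G_294 (hP : P.ok) : IGood P h294 :=
  irun_good hP T_294 ic0
theorem G_293 (hP : P.ok) : IGood P h293 :=
  irun_good hP T_293 ic0
theorem G_292 (hP : P.ok) : IGood P h292 :=
  irun_good hP T_292 ic0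
theorem G_291 (hP : P.ok) : IGood P h291 :=
  irun_good hP T_291 ic0
theorem G_290 (hP : P.ok) : IGood P h290 :=
  irun_good hP T_290 (ic1 (G_310 hP) (ic1 (G_311 hP) ic0))
theorem G_289 (hP : P.ok) : IGood P h289 :=
  irun_good hP T_289 ic0
theorem G_288 (hP : P.ok) : IGood P h288 :=
  irun_good hP T_288 ic0
theorem G_287 (hP : P.ok) : IGood P h287 :=
  irun_good hP T_287 ic0
theorem G_286 (hP : P.ok) : IGood P h286 :=
  irun_good hP T_286 ic0
theorem G_285 (hP : P.ok) : IGood P h285 :=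
  irun_good hP T_285 ic0
theorem G_284 (hP : P.ok) : IGood P h284 :=
  irun_good hP T_284 ic0
theorem G_283 (hP : P.ok) : IGood P h283 :=
  irun_good hP T_283 (ic1 (G_306 hP) (ic1 (G_307 hP) (ic1 (G_308 hP) (ic1 (G_309 hP) ic0))))
theorem G_282 (hP : P.ok) : IGood P h282 :=
  irun_good hP T_282 (ic1 (G_302 hP) (ic1 (G_303 hP) (ic1 (G_304 hP) (ic1 (G_305 hP) ic0))))
theorem G_281 (hP : P.ok) : IGood P h281 :=
  irun_good hP T_281 ic0
theorem G_280 (hP : P.ok) : IGood P h280 :=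
  irun_good hP T_280 ic0
theorem G_279 (hP : P.ok) : IGood P h279 :=
  irun_good hP T_279 ic0
theorem G_278 (hP : P.ok) : IGood P h278 :=
  irun_good hP T_278 ic0
theorem G_277 (hP : P.ok) : IGood P h277 :=
  irun_good hP T_277 ic0
theorem G_276 (hP : P.ok) : IGood P h276 :=
  irun_good hP T_276 (ic1 (G_301 hP) ic0)
theorem G_275 (hP : P.ok) : IGood P h275 :=
  irun_good hP T_275 (ic1 (G_298 hP) (ic1 (G_299 hP) (ic1 (G_300 hP) ic0)))
theorem G_274 (hP : P.ok) : IGood P h274 :=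
  irun_good hP T_274 (ic1 (G_297 hP) ic0)
theorem G_273 (hP : P.ok) : IGood P h273 :=
  irun_good hP T_273 ic0
theorem G_272 (hP : P.ok) : IGood P h272 :=
  irun_good hP T_272 (ic1 (G_295 hP) (ic1 (G_296 hP) ic0))
theorem G_271 (hP : P.ok) : IGood P h271 :=
  irun_good hP T_271 (ic1 (G_294 hP) ic0)
theorem G_270 (hP : P.ok) : IGood P h270 :=
  irun_good hP T_270 (ic1 (G_290 hP) (ic1 (G_291 hP) (ic1 (G_292 hP) (ic1 (G_293 hP) ic0))))
theorem G_269 (hP : P.ok) : IGood P h269 :=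
  irun_good hP T_269 ic0
theorem G_268 (hP : P.ok) : IGood P h268 :=
  irun_good hP T_268 ic0
theorem G_267 (hP : P.ok) : IGood P h267 :=
  irun_good hP T_267 ic0
theorem G_266 (hP : P.ok) : IGood P h266 :=
  irun_good hP T_266 ic0
theorem G_265 (hP : P.ok) : IGood P h265 :=
  irun_good hP T_265 ic0
theorem G_264 (hP : P.ok) : IGood P h264 :=
  irun_good hP T_264 (ic1 (G_289 hP) ic0)
theorem G_263 (hP : P.ok) : IGood P h263 :=
  irun_good hP T_263 (ic1 (G_286 hP) (ic1 (G_287 hP) (ic1 (G_288 hP) ic0)))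
theorem G_262 (hP : P.ok) : IGood P h262 :=
  irun_good hP T_262 ic0
theorem G_261 (hP : P.ok) : IGood P h261 :=
  irun_good hP T_261 (ic1 (G_285 hP) ic0)
theorem G_260 (hP : P.ok) : IGood P h260 :=
  irun_good hP T_260 ic0
theorem G_259 (hP : P.ok) : IGood P h259 :=
  irun_good hP T_259 (ic1 (G_282 hP) (ic1 (G_283 hP) (ic1 (G_284 hP) ic0)))
theorem G_258 (hP : P.ok) : IGood P h258 :=
  irun_good hP T_258 (ic1 (G_280 hP) (ic1 (G_281 hP) ic0))
theorem G_257 (hP : P.ok) : IGood P h257 :=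
  irun_good hP T_257 (ic1 (G_279 hP) ic0)
theorem G_256 (hP : P.ok) : IGood P h256 :=
  irun_good hP T_256 ic0
theorem G_255 (hP : P.ok) : IGood P h255 :=
  irun_good hP T_255 ic0
theorem G_254 (hP : P.ok) : IGood P h254 :=
  irun_good hP T_254 (ic1 (G_278 hP) ic0)
theorem G_253 (hP : P.ok) : IGood P h253 :=
  irun_good hP T_253 ic0
theorem G_252 (hP : P.ok) : IGood P h252 :=
  irun_good hP T_252 ic0
theorem G_251 (hP : P.ok) : IGood P h251 :=
  irun_good hP T_251 (ic1 (G_275 hP) (ic1 (G_276 hP) (ic1 (G_277 hP) ic0)))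
theorem G_250 (hP : P.ok) : IGood P h250 :=
  irun_good hP T_250 (ic1 (G_274 hP) ic0)
theorem G_249 (hP : P.ok) : IGood P h249 :=
  irun_good hP T_249 ic0
theorem G_248 (hP : P.ok) : IGood P h248 :=
  irun_good hP T_248 (ic1 (G_273 hP) ic0)
theorem G_247 (hP : P.ok) : IGood P h247 :=
  irun_good hP T_247 ic0
theorem G_246 (hP : P.ok) : IGood P h246 :=
  irun_good hP T_246 ic0
theorem G_245 (hP : P.ok) : IGood P h245 :=
  irun_good hP T_245 ic0
theorem G_244 (hP : P.ok) : IGood P h244 :=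
  irun_good hP T_244 (ic1 (G_272 hP) ic0)
theorem G_243 (hP : P.ok) : IGood P h243 :=
  irun_good hP T_243 (ic1 (G_271 hP) ic0)
theorem G_242 (hP : P.ok) : IGood P h242 :=
  irun_good hP T_242 ic0
theorem G_241 (hP : P.ok) : IGood P h241 :=
  irun_good hP T_241 ic0
theorem G_240 (hP : P.ok) : IGood P h240 :=
  irun_good hP T_240 (ic1 (G_266 hP) (ic1 (G_267 hP) (ic1 (G_268 hP) (ic1 (G_269 hP) (ic1 (G_270 hP) ic0)))))
theorem G_239 (hP : P.ok) : IGood P h239 :=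
  irun_good hP T_239 (ic1 (G_265 hP) ic0)
theorem G_238 (hP : P.ok) : IGood P h238 :=
  irun_good hP T_238 ic0
theorem G_237 (hP : P.ok) : IGood P h237 :=
  irun_good hP T_237 ic0
theorem G_236 (hP : P.ok) : IGood P h236 :=
  irun_good hP T_236 ic0
theorem G_235 (hP : P.ok) : IGood P h235 :=
  irun_good hP T_235 ic0
theorem G_234 (hP : P.ok) : IGood P h234 :=
  irun_good hP T_234 ic0
theorem G_233 (hP : P.ok) : IGood P h233 :=
  irun_good hP T_233 ic0
theorem G_232 (hP : P.ok) : IGood P h232 :=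
  irun_good hP T_232 (ic1 (G_264 hP) ic0)
theorem G_231 (hP : P.ok) : IGood P h231 :=
  irun_good hP T_231 (ic1 (G_261 hP) (ic1 (G_262 hP) (ic1 (G_263 hP) ic0)))
theorem G_230 (hP : P.ok) : IGood P h230 :=
  irun_good hP T_230 (ic1 (G_258 hP) (ic1 (G_259 hP) (ic1 (G_260 hP) ic0)))
theorem G_229 (hP : P.ok) : IGood P h229 :=
  irun_good hP T_229 ic0
theorem G_228 (hP : P.ok) : IGood P h228 :=
  irun_good hP T_228 ic0
theorem G_227 (hP : P.ok) : IGood P h227 :=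
  irun_good hP T_227 (ic1 (G_256 hP) (ic1 (G_257 hP) ic0))
theorem G_226 (hP : P.ok) : IGood P h226 :=
  irun_good hP T_226 ic0
theorem G_225 (hP : P.ok) : IGood P h225 :=
  irun_good hP T_225 ic0
theorem G_224 (hP : P.ok) : IGood P h224 :=
  irun_good hP T_224 ic0
theorem G_223 (hP : P.ok) : IGood P h223 :=
  irun_good hP T_223 ic0
theorem G_222 (hP : P.ok) : IGood P h222 :=
  irun_good hP T_222 (ic1 (G_253 hP) (ic1 (G_254 hP) (ic1 (G_255 hP) ic0)))
theorem G_221 (hP : P.ok) : IGood P h221 :=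
  irun_good hP T_221 ic0
theorem G_220 (hP : P.ok) : IGood P h220 :=
  irun_good hP T_220 (ic1 (G_252 hP) ic0)
theorem G_219 (hP : P.ok) : IGood P h219 :=
  irun_good hP T_219 ic0
theorem G_218 (hP : P.ok) : IGood P h218 :=
  irun_good hP T_218 (ic1 (G_250 hP) (ic1 (G_251 hP) ic0))
theorem G_217 (hP : P.ok) : IGood P h217 :=
  irun_good hP T_217 (ic1 (G_249 hP) ic0)
theorem G_216 (hP : P.ok) : IGood P h216 :=
  irun_good hP T_216 (ic1 (G_248 hP) ic0)
theorem G_215 (hP : P.ok) : IGood P h215 :=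
  irun_good hP T_215 ic0
theorem G_214 (hP : P.ok) : IGood P h214 :=
  irun_good hP T_214 ic0
theorem G_213 (hP : P.ok) : IGood P h213 :=
  irun_good hP T_213 ic0
theorem G_212 (hP : P.ok) : IGood P h212 :=
  irun_good hP T_212 (ic1 (G_247 hP) ic0)
theorem G_211 (hP : P.ok) : IGood P h211 :=
  irun_good hP T_211 ic0
theorem G_210 (hP : P.ok) : IGood P h210 :=
  irun_good hP T_210 ic0
theorem G_209 (hP : P.ok) : IGood P h209 :=
  irun_good hP T_209 (ic1 (G_246 hP) ic0)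
theorem G_208 (hP : P.ok) : IGood P h208 :=
  irun_good hP T_208 ic0
theorem G_207 (hP : P.ok) : IGood P h207 :=
  irun_good hP T_207 (ic1 (G_245 hP) ic0)
theorem G_206 (hP : P.ok) : IGood P h206 :=
  irun_good hP T_206 (ic1 (G_244 hP) ic0)
theorem G_205 (hP : P.ok) : IGood P h205 :=
  irun_good hP T_205 (ic1 (G_242 hP) (ic1 (G_243 hP) ic0))
theorem G_204 (hP : P.ok) : IGood P h204 :=
  irun_good hP T_204 (ic1 (G_241 hP) ic0)
theorem G_203 (hP : P.ok) : IGood P h203 :=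
  irun_good hP T_203 ic0
theorem G_202 (hP : P.ok) : IGood P h202 :=
  irun_good hP T_202 (ic1 (G_239 hP) (ic1 (G_240 hP) ic0))
theorem G_201 (hP : P.ok) : IGood P h201 :=
  irun_good hP T_201 (ic1 (G_238 hP) ic0)
theorem G_200 (hP : P.ok) : IGood P h200 :=
  irun_good hP T_200 (ic1 (G_237 hP) ic0)
theorem G_199 (hP : P.ok) : IGood P h199 :=
  irun_good hP T_199 (ic1 (G_235 hP) (ic1 (G_236 hP) ic0))
theorem G_198 (hP : P.ok) : IGood P h198 :=
  irun_good hP T_198 ic0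
theorem G_197 (hP : P.ok) : IGood P h197 :=
  irun_good hP T_197 (ic1 (G_234 hP) ic0)
theorem G_196 (hP : P.ok) : IGood P h196 :=
  irun_good hP T_196 (ic1 (G_232 hP) (ic1 (G_233 hP) ic0))
theorem G_195 (hP : P.ok) : IGood P h195 :=
  irun_good hP T_195 (ic1 (G_227 hP) (ic1 (G_228 hP) (ic1 (G_229 hP) (ic1 (G_230 hP) (ic1 (G_231 hP) ic0)))))
theorem G_194 (hP : P.ok) : IGood P h194 :=
  irun_good hP T_194 ic0
theorem G_193 (hP : P.ok) : IGood P h193 :=
  irun_good hP T_193 (ic1 (G_224 hP) (ic1 (G_225 hP) (ic1 (G_226 hP) ic0)))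
theorem G_192 (hP : P.ok) : IGood P h192 :=
  irun_good hP T_192 (ic1 (G_223 hP) ic0)
theorem G_191 (hP : P.ok) : IGood P h191 :=
  irun_good hP T_191 (ic1 (G_222 hP) ic0)
theorem G_190 (hP : P.ok) : IGood P h190 :=
  irun_good hP T_190 (ic1 (G_221 hP) ic0)
theorem G_189 (hP : P.ok) : IGood P h189 :=
  irun_good hP T_189 ic0
theorem G_188 (hP : P.ok) : IGood P h188 :=
  irun_good hP T_188 ic0
theorem G_187 (hP : P.ok) : IGood P h187 :=
  irun_good hP T_187 (ic1 (G_216 hP) (ic1 (G_217 hP) (ic1 (G_218 hP) (ic1 (G_219 hP) (ic1 (G_220 hP) ic0)))))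
theorem G_186 (hP : P.ok) : IGood P h186 :=
  irun_good hP T_186 (ic1 (G_215 hP) ic0)
theorem G_185 (hP : P.ok) : IGood P h185 :=
  irun_good hP T_185 ic0
theorem G_184 (hP : P.ok) : IGood P h184 :=
  irun_good hP T_184 (ic1 (G_213 hP) (ic1 (G_214 hP) ic0))
theorem G_183 (hP : P.ok) : IGood P h183 :=
  irun_good hP T_183 (ic1 (G_209 hP) (ic1 (G_210 hP) (ic1 (G_211 hP) (ic1 (G_212 hP) ic0))))
theorem G_182 (hP : P.ok) : IGood P h182 :=
  irun_good hP T_182 ic0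
theorem G_181 (hP : P.ok) : IGood P h181 :=
  irun_good hP T_181 (ic1 (G_208 hP) ic0)
theorem G_180 (hP : P.ok) : IGood P h180 :=
  irun_good hP T_180 (ic1 (G_207 hP) ic0)
theorem G_179 (hP : P.ok) : IGood P h179 :=
  irun_good hP T_179 (ic1 (G_202 hP) (ic1 (G_203 hP) (ic1 (G_204 hP) (ic1 (G_205 hP) (ic1 (G_206 hP) ic0)))))
theorem G_178 (hP : P.ok) : IGood P h178 :=
  irun_good hP T_178 (ic1 (G_197 hP) (ic1 (G_198 hP) (ic1 (G_199 hP) (ic1 (G_200 hP) (ic1 (G_201 hP) ic0)))))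
theorem G_177 (hP : P.ok) : IGood P h177 :=
  irun_good hP T_177 (ic1 (G_195 hP) (ic1 (G_196 hP) ic0))
theorem G_176 (hP : P.ok) : IGood P h176 :=
  irun_good hP T_176 ic0
theorem G_175 (hP : P.ok) : IGood P h175 :=
  irun_good hP T_175 (ic1 (G_190 hP) (ic1 (G_191 hP) (ic1 (G_192 hP) (ic1 (G_193 hP) (ic1 (G_194 hP) ic0)))))
theorem G_174 (hP : P.ok) : IGood P h174 :=
  irun_good hP T_174 (ic1 (G_187 hP) (ic1 (G_188 hP) (ic1 (G_189 hP) ic0)))
theorem G_173 (hP : P.ok) : IGood P h173 :=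
  irun_good hP T_173 ic0
theorem G_172 (hP : P.ok) : IGood P h172 :=
  irun_good hP T_172 (ic1 (G_186 hP) ic0)
theorem G_171 (hP : P.ok) : IGood P h171 :=
  irun_good hP T_171 (ic1 (G_185 hP) ic0)
theorem G_170 (hP : P.ok) : IGood P h170 :=
  irun_good hP T_170 (ic1 (G_184 hP) ic0)
theorem G_169 (hP : P.ok) : IGood P h169 :=
  irun_good hP T_169 ic0
theorem G_168 (hP : P.ok) : IGood P h168 :=
  irun_good hP T_168 (ic1 (G_183 hP) ic0)
theorem G_167 (hP : P.ok) : IGood P h167 :=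
  irun_good hP T_167 (ic1 (G_180 hP) (ic1 (G_181 hP) (ic1 (G_182 hP) ic0)))
theorem G_166 (hP : P.ok) : IGood P h166 :=
  irun_good hP T_166 (ic1 (G_174 hP) (ic1 (G_175 hP) (ic1 (G_176 hP) (ic1 (G_177 hP) (ic1 (G_178 hP) (ic1 (G_179 hP) ic0))))))
theorem G_165 (hP : P.ok) : IGood P h165 :=
  irun_good hP T_165 (ic1 (G_172 hP) (ic1 (G_173 hP) ic0))
theorem G_164 (hP : P.ok) : IGood P h164 :=
  irun_good hP T_164 ic0
theorem G_163 (hP : P.ok) : IGood P h163 :=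
  irun_good hP T_163 (ic1 (G_170 hP) (ic1 (G_171 hP) ic0))
theorem G_162 (hP : P.ok) : IGood P h162 :=
  irun_good hP T_162 ic0
theorem G_161 (hP : P.ok) : IGood P h161 :=
  irun_good hP T_161 (ic1 (G_169 hP) ic0)
theorem G_160 (hP : P.ok) : IGood P h160 :=
  irun_good hP T_160 (ic1 (G_166 hP) (ic1 (G_167 hP) (ic1 (G_168 hP) ic0)))
theorem G_159 (hP : P.ok) : IGood P h159 :=
  irun_good hP T_159 ic0
theorem G_158 (hP : P.ok) : IGood P h158 :=
  irun_good hP T_158 (ic1 (G_162 hP) (ic1 (G_163 hP) (ic1 (G_164 hP) (ic1 (G_165 hP) ic0))))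
theorem G_157 (hP : P.ok) : IGood P h157 :=
  irun_good hP T_157 (ic1 (G_161 hP) ic0)
theorem G_156 (hP : P.ok) : IGood P h156 :=
  irun_good hP T_156 (ic1 (G_157 hP) (ic1 (G_158 hP) (ic1 (G_159 hP) (ic1 (G_160 hP) ic0))))
theorem G_155 (hP : P.ok) : IBad P (nat_lit 0x82468a007db9760081dca0007e236000800000007edcba007e5930007e59300081a6d0007e5930008113f0007eec10008113f0007eec10) :=
  iroot_bad hP T_155 (ic1 (G_156 hP) ic0)
theorem G_154 (hP : P.ok) : IGood P h154 :=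
  irun_good hP T_154 ic0
theorem G_153 (hP : P.ok) : IGood P h153 :=
  irun_good hP T_153 ic0
theorem G_152 (hP : P.ok) : IGood P h152 :=
  irun_good hP T_152 ic0
theorem G_151 (hP : P.ok) : IGood P h151 :=
  irun_good hP T_151 ic0
theorem G_150 (hP : P.ok) : IGood P h150 :=
  irun_good hP T_150 (ic1 (G_154 hP) ic0)
theorem G_149 (hP : P.ok) : IGood P h149 :=
  irun_good hP T_149 ic0
theorem G_148 (hP : P.ok) : IGood P h148 :=
  irun_good hP T_148 ic0
theorem G_147 (hP : P.ok) : IGood P h147 :=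
  irun_good hP T_147 ic0
theorem G_146 (hP : P.ok) : IGood P h146 :=
  irun_good hP T_146 (ic1 (G_152 hP) (ic1 (G_153 hP) ic0))
theorem G_145 (hP : P.ok) : IGood P h145 :=
  irun_good hP T_145 ic0
theorem G_144 (hP : P.ok) : IGood P h144 :=
  irun_good hP T_144 (ic1 (G_151 hP) ic0)
theorem G_143 (hP : P.ok) : IGood P h143 :=
  irun_good hP T_143 ic0
theorem G_142 (hP : P.ok) : IGood P h142 :=
  irun_good hP T_142 ic0
theorem G_141 (hP : P.ok) : IGood P h141 :=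
  irun_good hP T_141 ic0
theorem G_140 (hP : P.ok) : IGood P h140 :=
  irun_good hP T_140 ic0
theorem G_139 (hP : P.ok) : IGood P h139 :=
  irun_good hP T_139 (ic1 (G_150 hP) ic0)
theorem G_138 (hP : P.ok) : IGood P h138 :=
  irun_good hP T_138 (ic1 (G_149 hP) ic0)
theorem G_137 (hP : P.ok) : IGood P h137 :=
  irun_good hP T_137 (ic1 (G_148 hP) ic0)
theorem G_136 (hP : P.ok) : IGood P h136 :=
  irun_good hP T_136 ic0
theorem G_135 (hP : P.ok) : IGood P h135 :=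
  irun_good hP T_135 ic0
theorem G_134 (hP : P.ok) : IGood P h134 :=
  irun_good hP T_134 (ic1 (G_147 hP) ic0)
theorem G_133 (hP : P.ok) : IGood P h133 :=
  irun_good hP T_133 ic0
theorem G_132 (hP : P.ok) : IGood P h132 :=
  irun_good hP T_132 (ic1 (G_145 hP) (ic1 (G_146 hP) ic0))
theorem G_131 (hP : P.ok) : IGood P h131 :=
  irun_good hP T_131 (ic1 (G_142 hP) (ic1 (G_143 hP) (ic1 (G_144 hP) ic0)))
theorem G_130 (hP : P.ok) : IGood P h130 :=
  irun_good hP T_130 (ic1 (G_141 hP) ic0)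
theorem G_129 (hP : P.ok) : IGood P h129 :=
  irun_good hP T_129 (ic1 (G_140 hP) ic0)
theorem G_128 (hP : P.ok) : IGood P h128 :=
  irun_good hP T_128 ic0
theorem G_127 (hP : P.ok) : IGood P h127 :=
  irun_good hP T_127 ic0
theorem G_126 (hP : P.ok) : IGood P h126 :=
  irun_good hP T_126 (ic1 (G_139 hP) ic0)
theorem G_125 (hP : P.ok) : IGood P h125 :=
  irun_good hP T_125 (ic1 (G_138 hP) ic0)
theorem G_124 (hP : P.ok) : IGood P h124 :=
  irun_good hP T_124 ic0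
theorem G_123 (hP : P.ok) : IGood P h123 :=
  irun_good hP T_123 (ic1 (G_137 hP) ic0)
theorem G_122 (hP : P.ok) : IGood P h122 :=
  irun_good hP T_122 (ic1 (G_136 hP) ic0)
theorem G_121 (hP : P.ok) : IGood P h121 :=
  irun_good hP T_121 (ic1 (G_134 hP) (ic1 (G_135 hP) ic0))
theorem G_120 (hP : P.ok) : IGood P h120 :=
  irun_good hP T_120 (ic1 (G_133 hP) ic0)
theorem G_119 (hP : P.ok) : IGood P h119 :=
  irun_good hP T_119 ic0
theorem G_118 (hP : P.ok) : IGood P h118 :=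
  irun_good hP T_118 (ic1 (G_128 hP) (ic1 (G_129 hP) (ic1 (G_130 hP) (ic1 (G_131 hP) (ic1 (G_132 hP) ic0)))))
theorem G_117 (hP : P.ok) : IGood P h117 :=
  irun_good hP T_117 (ic1 (G_127 hP) ic0)
theorem G_116 (hP : P.ok) : IGood P h116 :=
  irun_good hP T_116 (ic1 (G_123 hP) (ic1 (G_124 hP) (ic1 (G_125 hP) (ic1 (G_126 hP) ic0))))
theorem G_115 (hP : P.ok) : IGood P h115 :=
  irun_good hP T_115 (ic1 (G_118 hP) (ic1 (G_119 hP) (ic1 (G_120 hP) (ic1 (G_121 hP) (ic1 (G_122 hP) ic0)))))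
theorem G_114 (hP : P.ok) : IGood P h114 :=
  irun_good hP T_114 ic0
theorem G_113 (hP : P.ok) : IGood P h113 :=
  irun_good hP T_113 ic0
theorem G_112 (hP : P.ok) : IGood P h112 :=
  irun_good hP T_112 (ic1 (G_117 hP) ic0)
theorem G_111 (hP : P.ok) : IGood P h111 :=
  irun_good hP T_111 (ic1 (G_116 hP) ic0)
theorem G_110 (hP : P.ok) : IGood P h110 :=
  irun_good hP T_110 ic0
theorem G_109 (hP : P.ok) : IGood P h109 :=
  irun_good hP T_109 (ic1 (G_114 hP) (ic1 (G_115 hP) ic0))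
theorem G_108 (hP : P.ok) : IGood P h108 :=
  irun_good hP T_108 (ic1 (G_111 hP) (ic1 (G_112 hP) (ic1 (G_113 hP) ic0)))
theorem G_107 (hP : P.ok) : IGood P h107 :=
  irun_good hP T_107 (ic1 (G_110 hP) ic0)
theorem G_106 (hP : P.ok) : IGood P h106 :=
  irun_good hP T_106 ic0
theorem G_105 (hP : P.ok) : IBad P (nat_lit 0x82468a007db9760081dca0007e236000800000007edcba0081a6d0007e59300081a6d0007e5930008113f0008113f0008113f0007eec10) :=
  iroot_bad hP T_105 (ic1 (G_106 hP) (ic1 (G_107 hP) (ic1 (G_108 hP) (ic1 (G_109 hP) ic0))))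
theorem G_104 (hP : P.ok) : IGood P h104 :=
  irun_good hP T_104 ic0
theorem G_103 (hP : P.ok) : IGood P h103 :=
  irun_good hP T_103 ic0
theorem G_102 (hP : P.ok) : IGood P h102 :=
  irun_good hP T_102 (ic1 (G_104 hP) ic0)
theorem G_101 (hP : P.ok) : IGood P h101 :=
  irun_good hP T_101 ic0
theorem G_100 (hP : P.ok) : IGood P h100 :=
  irun_good hP T_100 ic0
theorem G_99 (hP : P.ok) : IGood P h99 :=
  irun_good hP T_99 ic0
theorem G_98 (hP : P.ok) : IGood P h98 :=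
  irun_good hP T_98 ic0
theorem G_97 (hP : P.ok) : IGood P h97 :=
  irun_good hP T_97 ic0
theorem G_96 (hP : P.ok) : IGood P h96 :=
  irun_good hP T_96 (ic1 (G_102 hP) (ic1 (G_103 hP) ic0))
theorem G_95 (hP : P.ok) : IGood P h95 :=
  irun_good hP T_95 (ic1 (G_101 hP) ic0)
theorem G_94 (hP : P.ok) : IGood P h94 :=
  irun_good hP T_94 ic0
theorem G_93 (hP : P.ok) : IGood P h93 :=
  irun_good hP T_93 ic0
theorem G_92 (hP : P.ok) : IGood P h92 :=
  irun_good hP T_92 (ic1 (G_100 hP) ic0)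
theorem G_91 (hP : P.ok) : IGood P h91 :=
  irun_good hP T_91 ic0
theorem G_90 (hP : P.ok) : IGood P h90 :=
  irun_good hP T_90 (ic1 (G_99 hP) ic0)
theorem G_89 (hP : P.ok) : IGood P h89 :=
  irun_good hP T_89 ic0
theorem G_88 (hP : P.ok) : IGood P h88 :=
  irun_good hP T_88 ic0
theorem G_87 (hP : P.ok) : IGood P h87 :=
  irun_good hP T_87 ic0
theorem G_86 (hP : P.ok) : IGood P h86 :=
  irun_good hP T_86 (ic1 (G_98 hP) ic0)
theorem G_85 (hP : P.ok) : IGood P h85 :=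
  irun_good hP T_85 ic0
theorem G_84 (hP : P.ok) : IGood P h84 :=
  irun_good hP T_84 (ic1 (G_96 hP) (ic1 (G_97 hP) ic0))
theorem G_83 (hP : P.ok) : IGood P h83 :=
  irun_good hP T_83 (ic1 (G_95 hP) ic0)
theorem G_82 (hP : P.ok) : IGood P h82 :=
  irun_good hP T_82 ic0
theorem G_81 (hP : P.ok) : IGood P h81 :=
  irun_good hP T_81 (ic1 (G_92 hP) (ic1 (G_93 hP) (ic1 (G_94 hP) ic0)))
theorem G_80 (hP : P.ok) : IGood P h80 :=
  irun_good hP T_80 (ic1 (G_89 hP) (ic1 (G_90 hP) (ic1 (G_91 hP) ic0)))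
theorem G_79 (hP : P.ok) : IGood P h79 :=
  irun_good hP T_79 (ic1 (G_84 hP) (ic1 (G_85 hP) (ic1 (G_86 hP) (ic1 (G_87 hP) (ic1 (G_88 hP) ic0)))))
theorem G_78 (hP : P.ok) : IGood P h78 :=
  irun_good hP T_78 (ic1 (G_81 hP) (ic1 (G_82 hP) (ic1 (G_83 hP) ic0)))
theorem G_77 (hP : P.ok) : IGood P h77 :=
  irun_good hP T_77 (ic1 (G_80 hP) ic0)
theorem G_76 (hP : P.ok) : IGood P h76 :=
  irun_good hP T_76 (ic1 (G_78 hP) (ic1 (G_79 hP) ic0))
theorem G_75 (hP : P.ok) : IGood P h75 :=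
  irun_good hP T_75 (ic1 (G_77 hP) ic0)
theorem G_74 (hP : P.ok) : IGood P h74 :=
  irun_good hP T_74 (ic1 (G_75 hP) (ic1 (G_76 hP) ic0))
theorem G_73 (hP : P.ok) : IBad P (nat_lit 0x82468a007db9760081dca0007e236000800000007edcba0081a6d0007e59300081a6d0007e5930007eec10007eec10008113f0007eec10) :=
  iroot_bad hP T_73 (ic1 (G_74 hP) ic0)
theorem G_72 (hP : P.ok) : IGood P h72 :=
  irun_good hP T_72 ic0
theorem G_71 (hP : P.ok) : IGood P h71 :=
  irun_good hP T_71 ic0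
theorem G_70 (hP : P.ok) : IGood P h70 :=
  irun_good hP T_70 ic0
theorem G_69 (hP : P.ok) : IGood P h69 :=
  irun_good hP T_69 ic0
theorem G_68 (hP : P.ok) : IGood P h68 :=
  irun_good hP T_68 ic0
theorem G_67 (hP : P.ok) : IGood P h67 :=
  irun_good hP T_67 ic0
theorem G_66 (hP : P.ok) : IGood P h66 :=
  irun_good hP T_66 (ic1 (G_71 hP) (ic1 (G_72 hP) ic0))
theorem G_65 (hP : P.ok) : IGood P h65 :=
  irun_good hP T_65 (ic1 (G_70 hP) ic0)
theorem G_64 (hP : P.ok) : IGood P h64 :=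
  irun_good hP T_64 (ic1 (G_69 hP) ic0)
theorem G_63 (hP : P.ok) : IGood P h63 :=
  irun_good hP T_63 (ic1 (G_68 hP) ic0)
theorem G_62 (hP : P.ok) : IGood P h62 :=
  irun_good hP T_62 (ic1 (G_67 hP) ic0)
theorem G_61 (hP : P.ok) : IGood P h61 :=
  irun_good hP T_61 (ic1 (G_66 hP) ic0)
theorem G_60 (hP : P.ok) : IGood P h60 :=
  irun_good hP T_60 (ic1 (G_64 hP) (ic1 (G_65 hP) ic0))
theorem G_59 (hP : P.ok) : IGood P h59 :=
  irun_good hP T_59 (ic1 (G_63 hP) ic0)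
theorem G_58 (hP : P.ok) : IGood P h58 :=
  irun_good hP T_58 (ic1 (G_62 hP) ic0)
theorem G_57 (hP : P.ok) : IGood P h57 :=
  irun_good hP T_57 (ic1 (G_59 hP) (ic1 (G_60 hP) (ic1 (G_61 hP) ic0)))
theorem G_56 (hP : P.ok) : IGood P h56 :=
  irun_good hP T_56 ic0
theorem G_55 (hP : P.ok) : IGood P h55 :=
  irun_good hP T_55 ic0
theorem G_54 (hP : P.ok) : IGood P h54 :=
  irun_good hP T_54 (ic1 (G_55 hP) (ic1 (G_56 hP) (ic1 (G_57 hP) (ic1 (G_58 hP) ic0))))
theorem G_53 (hP : P.ok) : IBad P (nat_lit 0x82468a007db9760081dca0007e236000800000007edcba0081a6d0007e59300081a6d00081a6d0008113f0007eec10008113f0007eec10) :=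
  iroot_bad hP T_53 (ic1 (G_54 hP) ic0)
theorem G_52 (hP : P.ok) : IBad P (nat_lit 0x82468a007db9760081dca0007e236000800000007edcba0081a6d0007e5930007e5930007e5930008113f0007eec10008113f0007eec10) :=
  iroot_bad hP T_52 ic0
theorem G_51 (hP : P.ok) : IGood P h51 :=
  irun_good hP T_51 ic0
theorem G_50 (hP : P.ok) : IGood P h50 :=
  irun_good hP T_50 ic0
theorem G_49 (hP : P.ok) : IGood P h49 :=
  irun_good hP T_49 ic0
theorem G_48 (hP : P.ok) : IGood P h48 :=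
  irun_good hP T_48 ic0
theorem G_47 (hP : P.ok) : IGood P h47 :=
  irun_good hP T_47 ic0
theorem G_46 (hP : P.ok) : IGood P h46 :=
  irun_good hP T_46 ic0
theorem G_45 (hP : P.ok) : IGood P h45 :=
  irun_good hP T_45 ic0
theorem G_44 (hP : P.ok) : IGood P h44 :=
  irun_good hP T_44 (ic1 (G_51 hP) ic0)
theorem G_43 (hP : P.ok) : IGood P h43 :=
  irun_good hP T_43 (ic1 (G_50 hP) ic0)
theorem G_42 (hP : P.ok) : IGood P h42 :=
  irun_good hP T_42 ic0
theorem G_41 (hP : P.ok) : IGood P h41 :=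
  irun_good hP T_41 ic0
theorem G_40 (hP : P.ok) : IGood P h40 :=
  irun_good hP T_40 ic0
theorem G_39 (hP : P.ok) : IGood P h39 :=
  irun_good hP T_39 ic0
theorem G_38 (hP : P.ok) : IGood P h38 :=
  irun_good hP T_38 ic0
theorem G_37 (hP : P.ok) : IGood P h37 :=
  irun_good hP T_37 ic0
theorem G_36 (hP : P.ok) : IGood P h36 :=
  irun_good hP T_36 ic0
theorem G_35 (hP : P.ok) : IGood P h35 :=
  irun_good hP T_35 (ic1 (G_46 hP) (ic1 (G_47 hP) (ic1 (G_48 hP) (ic1 (G_49 hP) ic0))))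
theorem G_34 (hP : P.ok) : IGood P h34 :=
  irun_good hP T_34 (ic1 (G_43 hP) (ic1 (G_44 hP) (ic1 (G_45 hP) ic0)))
theorem G_33 (hP : P.ok) : IGood P h33 :=
  irun_good hP T_33 (ic1 (G_41 hP) (ic1 (G_42 hP) ic0))
theorem G_32 (hP : P.ok) : IGood P h32 :=
  irun_good hP T_32 (ic1 (G_40 hP) ic0)
theorem G_31 (hP : P.ok) : IGood P h31 :=
  irun_good hP T_31 (ic1 (G_38 hP) (ic1 (G_39 hP) ic0))
theorem G_30 (hP : P.ok) : IGood P h30 :=
  irun_good hP T_30 ic0
theorem G_29 (hP : P.ok) : IGood P h29 :=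
  irun_good hP T_29 (ic1 (G_37 hP) ic0)
theorem G_28 (hP : P.ok) : IGood P h28 :=
  irun_good hP T_28 ic0
theorem G_27 (hP : P.ok) : IGood P h27 :=
  irun_good hP T_27 ic0
theorem G_26 (hP : P.ok) : IGood P h26 :=
  irun_good hP T_26 (ic1 (G_36 hP) ic0)
theorem G_25 (hP : P.ok) : IGood P h25 :=
  irun_good hP T_25 (ic1 (G_32 hP) (ic1 (G_33 hP) (ic1 (G_34 hP) (ic1 (G_35 hP) ic0))))
theorem G_24 (hP : P.ok) : IGood P h24 :=
  irun_good hP T_24 (ic1 (G_30 hP) (ic1 (G_31 hP) ic0))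
theorem G_23 (hP : P.ok) : IGood P h23 :=
  irun_good hP T_23 (ic1 (G_29 hP) ic0)
theorem G_22 (hP : P.ok) : IGood P h22 :=
  irun_good hP T_22 (ic1 (G_24 hP) (ic1 (G_25 hP) (ic1 (G_26 hP) (ic1 (G_27 hP) (ic1 (G_28 hP) ic0)))))
theorem G_21 (hP : P.ok) : IGood P h21 :=
  irun_good hP T_21 ic0
theorem G_20 (hP : P.ok) : IGood P h20 :=
  irun_good hP T_20 (ic1 (G_21 hP) (ic1 (G_22 hP) (ic1 (G_23 hP) ic0)))
theorem G_19 (hP : P.ok) : IBad P (nat_lit 0x82468a007db9760081dca0007e236000800000007edcba0081a6d0007e59300081a6d0007e5930008113f0007eec10008113f0008113f0) :=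
  iroot_bad hP T_19 (ic1 (G_20 hP) ic0)
theorem G_18 (hP : P.ok) : IGood P h18 :=
  irun_good hP T_18 ic0
theorem G_17 (hP : P.ok) : IGood P h17 :=
  irun_good hP T_17 ic0
theorem G_16 (hP : P.ok) : IGood P h16 :=
  irun_good hP T_16 ic0
theorem G_15 (hP : P.ok) : IGood P h15 :=
  irun_good hP T_15 ic0
theorem G_14 (hP : P.ok) : IGood P h14 :=
  irun_good hP T_14 ic0
theorem G_13 (hP : P.ok) : IGood P h13 :=
  irun_good hP T_13 ic0
theorem G_12 (hP : P.ok) : IGood P h12 :=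
  irun_good hP T_12 (ic1 (G_17 hP) (ic1 (G_18 hP) ic0))
theorem G_11 (hP : P.ok) : IGood P h11 :=
  irun_good hP T_11 ic0
theorem G_10 (hP : P.ok) : IGood P h10 :=
  irun_good hP T_10 (ic1 (G_13 hP) (ic1 (G_14 hP) (ic1 (G_15 hP) (ic1 (G_16 hP) ic0))))
theorem G_9 (hP : P.ok) : IGood P h9 :=
  irun_good hP T_9 (ic1 (G_12 hP) ic0)
theorem G_8 (hP : P.ok) : IGood P h8 :=
  irun_good hP T_8 ic0
theorem G_7 (hP : P.ok) : IGood P h7 :=
  irun_good hP T_7 (ic1 (G_11 hP) ic0)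
theorem G_6 (hP : P.ok) : IGood P h6 :=
  irun_good hP T_6 ic0
theorem G_5 (hP : P.ok) : IGood P h5 :=
  irun_good hP T_5 (ic1 (G_9 hP) (ic1 (G_10 hP) ic0))
theorem G_4 (hP : P.ok) : IGood P h4 :=
  irun_good hP T_4 (ic1 (G_7 hP) (ic1 (G_8 hP) ic0))
theorem G_3 (hP : P.ok) : IGood P h3 :=
  irun_good hP T_3 (ic1 (G_5 hP) (ic1 (G_6 hP) ic0))
theorem G_2 (hP : P.ok) : IGood P h2 :=
  irun_good hP T_2 (ic1 (G_3 hP) (ic1 (G_4 hP) ic0))
theorem G_1 (hP : P.ok) : IGood P h1 :=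
  irun_good hP T_1 (ic1 (G_2 hP) ic0)
theorem G_0 (hP : P.ok) : IBad P (nat_lit 0x82468a007db9760081dca0007e236000800000007edcba0081a6d0007e59300081a6d0007e5930008113f0007eec10007eec10007eec10) :=
  iroot_bad hP T_0 (ic1 (G_1 hP) ic0)

def lo : V7 Int := ⟨Int.ofNat 6337685, Int.negSucc 13681288, Int.ofNat 6337685, Int.ofNat 13464810, Int.ofNat 15053115, Int.negSucc 74565, Int.ofNat 6259195⟩
def hi : V7 Int := ⟨Int.ofNat 6478964, Int.negSucc 13464809, Int.ofNat 6478964, Int.ofNat 13681289, Int.ofNat 15297146, Int.ofNat 0, Int.ofNat 6557454⟩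
theorem notLoc (hP : P.ok) : NotLoc (iops lo hi) (fun a : Int => (a : ℝ)) P := by
  refine notLoc_fast hP ⟨70640, 108240, 70640, 108240, 122016, 74566, 149130⟩ lo hi (by decide +kernel) fun n hn s hs => ?_
  interval_cases n <;> cases s
  · exact ⟨_, by decide +kernel, G_0 hP⟩
  · exact ⟨_, by decide +kernel, G_19 hP⟩
  · exact ⟨_, by decide +kernel, G_52 hP⟩
  · exact ⟨_, by decide +kernel, G_53 hP⟩
  · exact ⟨_, by decide +kernel, G_73 hP⟩
  · exact ⟨_, by decide +kernel, G_105 hP⟩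
  · exact ⟨_, by decide +kernel, G_155 hP⟩
  · exact ⟨_, by decide +kernel, G_329 hP⟩
  · exact ⟨_, by decide +kernel, G_330 hP⟩
  · exact ⟨_, by decide +kernel, G_331 hP⟩
  · exact ⟨_, by decide +kernel, G_334 hP⟩
  · exact absurd ⟨rfl, rfl⟩ hs
  · exact ⟨_, by decide +kernel, G_685 hP⟩
  · exact ⟨_, by decide +kernel, G_686 hP⟩

end

end Pool.Agent.Lib.MP_9d820d_co.Inn
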